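import Pool.Agent.H75.L.W662.CB.Stmts

set_option autoImplicit false

open MeasureTheory Filter Topology Complex
open scoped InnerProductSpace ENNReal

namespace Pool.Agent.W376.CB

open Pool.Agent.W662.CB

noncomputable section

/-- the spectral projection of the translations lies in the core -/
def S_FIN0 : Prop := ∀ (H : Type) [NormedAddCommGroup H] [InnerProductSpace ℂ H] [CompleteSpace H]
  (N : VonNeumannAlgebra H) (U : ℝ → H →L[ℂ] H) (R : ℝ → LR H →L[ℂ] LR H),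
  (∀ t, IsShift t (R t)) → ∀ Φ : LR H ≃ₗᵢ[ℂ] LR H,
  (∀ (t : ℝ) (S S' : LR H →L[ℂ] LR H), IsShift t S →
    IsMulOp (fun w : ℝ => Complex.exp (2 * Real.pi * I * (-t : ℝ) * w)) S' →
    ∀ f : LR H, Φ (S f) = S' (Φ f)) →
  ∀ W : ℝ, 0 < W → ∀ P P' : LR H →L[ℂ] LR H,
    IsMulOp (Set.indicator (Set.Icc 0 W) (fun _ => (1 : ℂ))) P →
    (∀ f : LR H, Φ (P' f) = P (Φ f)) → P' ∈ core N U

theorem mem_vnGen {K : Type} [NormedAddCommGroup K] [InnerProductSpace ℂ K] [CompleteSpace K]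
    (S : Set (K →L[ℂ] K)) (P : K →L[ℂ] K)
    (h : ∀ X : K →L[ℂ] K, (∀ g ∈ S, g * X = X * g) → X * P = P * X) : P ∈ vnGen S := by
  show P ∈ StarSubalgebra.centralizer ℂ ((StarSubalgebra.centralizer ℂ S : Set (K →L[ℂ] K)))
  rw [StarSubalgebra.mem_centralizer_iff]
  intro X hX
  have hX' : X ∈ StarSubalgebra.centralizer ℂ S := hX
  have hXs : star X ∈ StarSubalgebra.centralizer ℂ S := star_mem hX'
  rw [StarSubalgebra.mem_centralizer_iff] at hX' hXs
  exact ⟨h X fun g hg => (hX' g hg).1, h (star X) fun g hg => (hXs g hg).1⟩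

theorem fin0 (h2 : S_E2) (_h2b : S_E2b) (h10 : S_E10) : S_FIN0 := by
  intro H _ _ _ N U R hR Φ hΦ W hW P P' hP hP'
  apply mem_vnGen
  intro X hX
  -- the characters
  have hex : ∀ t : ℝ, ∃ S : LR H →L[ℂ] LR H,
      IsMulOp (fun w : ℝ => Complex.exp (2 * Real.pi * I * t * w)) S := by
    intro t
    obtain ⟨S, hS, -⟩ := h2 H (fun w : ℝ => Complex.exp (2 * Real.pi * I * t * w)) 1
      (by fun_prop) (by
        intro w
        have : (2 * Real.pi * I * t * w : ℂ) = ((2 * Real.pi * t * w : ℝ) : ℂ) * I := by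
          push_cast; ring
        rw [this, Complex.norm_exp_ofReal_mul_I])
    exact ⟨S, hS⟩
  choose e he using hex
  have hXR : ∀ t : ℝ, ∀ f : LR H, X (R t f) = R t (X f) := by
    intro t f
    have h1 : R t * X = X * R t := hX (R t) (Or.inr ⟨t, hR t⟩)
    have h3 := congrArg (fun T : LR H →L[ℂ] LR H => T f) h1
    exact h3.symm
  have hRe : ∀ (t : ℝ) (f : LR H), Φ (R (-t) f) = e t (Φ f) := by
    intro t f
    refine hΦ (-t) (R (-t)) (e t) (hR (-t)) ?_ f
    rw [neg_neg]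
    exact he t
  let Y : LR H →L[ℂ] LR H := (Φ.toContinuousLinearEquiv : LR H →L[ℂ] LR H) ∘L X ∘L
    (Φ.symm.toContinuousLinearEquiv : LR H →L[ℂ] LR H)
  have hY : ∀ f : LR H, Y (Φ f) = Φ (X f) := by
    intro f
    show Φ (X (Φ.symm (Φ f))) = Φ (X f)
    rw [LinearIsometryEquiv.symm_apply_apply]
  have hYe : ∀ t : ℝ, Y * e t = e t * Y := by
    intro t
    ext1 g
    obtain ⟨f, rfl⟩ := Φ.surjective g
    show Y (e t (Φ f)) = e t (Y (Φ f))
    rw [← hRe, hY, hY, hXR, hRe]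
  have hYP : Y * P = P * Y := h10 H e he Y hYe W P hW hP
  ext1 f
  apply Φ.injective
  show Φ (X (P' f)) = Φ (P' (X f))
  rw [← hY, hP', hP', ← hY]
  exact congrArg (fun T : LR H →L[ℂ] LR H => T (Φ f)) hYP

end

end Pool.Agent.W376.CB
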